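import Mathlib
import Pool.Agent.H80R3.SP.Orb
import Pool.Agent.H80R3.SP.IN
import Pool.Agent.H80R3.SP.CH
import Pool.Agent.H80R3.SP.CL
import Pool.Agent.H80R3.SP.TR
import Pool.Agent.H80R3.SP.CP
import Pool.Agent.H80R3.SP.FS
import Pool.Agent.H80R3.SP.AC
import Pool.Agent.H80R3.SP.ST
import Pool.Agent.H80R3.SP.FD
import Pool.Agent.H80R3.SP.DI

/-!
# A unique sequential commutation orbit has finite diameter

`N` is a II_1 factor of operators on a Hilbert space with its faithful normal tracial state `τ`
(`Helper278.IsIIOneFactor N τ`); no separability assumption.  `Haar τ u`: `u` is a Haar unitary of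
`N`.  A unitary of the ultrapower `N^U` is given by a sequence of unitaries of `N` (every unitary of
`N^U` lifts to such a sequence); its trace is the limit of the traces along `U`, and two of them
commute iff the 2-norms of the commutators tend to `0` along `U` (`HaarU`, `CommU`, `Chain`).
-/

set_option autoImplicit false

open scoped ComplexOrder Topology InnerProductSpace
open Filter

noncomputable section

namespace Pool.Agent.Results.MP_b14dba_an.FiniteDiameter

open Pool.Agent.H467F Pool.Agent.H80R3.SO

/-- Unique sequential commutation orbit: any two Haar unitaries are joined by a chain. -/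
def UniqueOrbit {A : Type} [CStarAlgebra A] (τ : A →ₗ[ℂ] ℂ) (U : Ultrafilter ℕ) : Prop :=
  ∀ u v : unitary A, Haar τ u → Haar τ v → ∃ n : ℕ, 1 ≤ n ∧ Chain τ U n u v

/-- Any two Haar unitaries are joined by a chain of length `m`. -/
def JoinedBy {A : Type} [CStarAlgebra A] (τ : A →ₗ[ℂ] ℂ) (U : Ultrafilter ℕ) (m : ℕ) : Prop :=
  ∀ u v : unitary A, Haar τ u → Haar τ v → Chain τ U m u v

/-- **Theorem.** Let `N` be a II_1 factor (not necessarily separable) with a unique sequential
commutation orbit. Then the lengths of the chains can be bounded: there is `m` such that any two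
Haar unitaries are joined by a chain of length `m`, and the sequential commutation diameter of `N`
is at most `m`; it is finite. -/
theorem result (H : Type) [NormedAddCommGroup H] [InnerProductSpace ℂ H] [CompleteSpace H]
    (N : VonNeumannAlgebra H) (τ : Pool.Agent.Helper278.Elt N →ₗ[ℂ] ℂ)
    (hN : Pool.Agent.Helper278.IsIIOneFactor N (τ : Pool.Agent.Helper278.Elt N → ℂ))
    (U : Ultrafilter ℕ) (hU : ∀ n, {n} ∉ U) (huniq : UniqueOrbit τ U) :
    ∃ m : ℕ, 1 ≤ m ∧ JoinedBy τ U m ∧ diameter τ U ≤ m := by
  have hFS : S_FS := p_FS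
  have hAC : S_AC := p_AC hFS
  have hST : S_ST := p_ST hFS
  have hFD : S_FD := p_FD p_TR2 p_TR1 p_TR3 p_TR4 hAC hST
  have hDI : S_DI := p_DI p_CL p_CP hFD p_TR1
  exact finite_diameter hDI p_CH (p_IN H N τ hN) hU huniq

end Pool.Agent.Results.MP_b14dba_an.FiniteDiameter
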