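import Mathlib
import Pool.Agent.H878R6.SC.Fin2
import Pool.Agent.H878R6.SC.P_HAAR
import Pool.Agent.H878R6.SC.P_COMM
import Pool.Agent.H878R6.SC.P_BLK
import Pool.Agent.H878R6.SC.P_GAPD
import Pool.Agent.H878R6.SC.P_UGAP
import Pool.Agent.H878R6.SC.P_C1
import Pool.Agent.H878R6.SC.P_C2
import Pool.Agent.H878R6.SC.P_C3
import Pool.Agent.H878R6.SC.P_UV
import Pool.Agent.H878R6.SC.P_UW
import Pool.Agent.H878R6.SC.P_G2
import Pool.Agent.H878R6.SC.P_ULT

/-!
MP_b14dba_an (non-Gamma factors with prescribed sequential commutation diameter): the diameter is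
never one.  In every II_1 factor without property Gamma there are two conjugate Haar unitaries with a
universal spectral gap.  (The exclusion of the diameter one was first proved by helper170, from the
solution of the generator problem; this proof is independent.)

Project SC of helper878 (table h878s_tasks), with helpers 79, 186, 208, 225, 249, 350, 392, 434,
503, 553, 68, 833; it uses the universal spectral gap of helper518's team (S03914).
-/

set_option autoImplicit false

open scoped BoundedContinuousFunction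

namespace Pool.Agent.Results.MP_b14dba_an.TwoHaarUnitaries

open Pool.Agent.H467F Pool.Agent.H878R6.SC

/-- The linear functionals on a C*-algebra. -/
noncomputable def Fn (A : Type) [CStarAlgebra A] : Type := A →ₗ[ℂ] ℂ

/-- The values of a functional. -/
noncomputable def Fn.val {A : Type} [CStarAlgebra A] (t : Fn A) (x : A) : ℂ := (show A →ₗ[ℂ] ℂ from t) x

/-- The constant sequence `u`, as an element of the ultrapower. -/
noncomputable def cst {M : Type} [CStarAlgebra M] {Q : Type} [Ring Q] [StarRing Q] [Algebra ℂ Q]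
    (π : (ℕ →ᵇ M) →⋆ₐ[ℂ] Q) (u : M) : Q :=
  π (BoundedContinuousFunction.const ℕ u)

/-- Only the scalars commute with `a` and `b`. -/
def OnlyScalars {Q : Type} [Ring Q] [Algebra ℂ Q] (a b : Q) : Prop :=
  ∀ q : Q, Commute q a → Commute q b → ∃ l : ℂ, q = l • (1 : Q)

/-- The sequential commutation diameter of `(M, τ)`, where `(Q, σ)` with `π` is the ultrapower: the
supremum over all Haar unitaries `u, v` of `M` of the length of a shortest chain joining `u` and
`v` (constant sequences) in the ultrapower. -/
noncomputable def diam {M : Type} [CStarAlgebra M] (τ : M → ℂ) {Q : Type} [Ring Q] [StarRing Q]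
    [Algebra ℂ Q] (π : (ℕ →ᵇ M) →⋆ₐ[ℂ] Q) (σ : Q → ℂ) : ℕ∞ :=
  ⨆ (u : M) (v : M) (_ : Haar τ u) (_ : Haar τ v), pN σ (cst π u) (cst π v)

/-- In every model of every ultrapower `(Q, σ)` of `(M, τ)`: only scalars commute with `u` and `v`,
these are joined by no chain with one intermediate Haar unitary, and the sequential commutation
diameter is at least two. -/
def AtLeastTwo {M : Type} [CStarAlgebra M] (τ : M → ℂ) (u v : M) : Prop :=
  ∀ (U : Ultrafilter ℕ) (Q : Type) [Ring Q] [StarRing Q] [Algebra ℂ Q] [StarModule ℂ Q]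
    (π : (ℕ →ᵇ M) →⋆ₐ[ℂ] Q) (σ : Q → ℂ), IsTracialUltrapower τ U π σ →
    OnlyScalars (cst π u) (cst π v) ∧ 2 ≤ pN σ (cst π u) (cst π v) ∧ 2 ≤ diam τ π σ

/-- `(M, τ)` contains two conjugate Haar unitaries with spectral gap `C`, and the consequences of
this for the ultrapowers. -/
def HasPair {M : Type} [CStarAlgebra M] (τ : M →ₗ[ℂ] ℂ) (C : ℝ) : Prop :=
  ∃ u v c : M, c ∈ unitary M ∧ v = c * u * star c ∧ Haar τ u ∧ Haar τ v ∧ Gap2 τ C u v ∧
    AtLeastTwo τ u v

/-- There is a universal constant `C` such that every II_1 factor `N` without property Gamma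
contains two conjugate Haar unitaries `u` and `v = c u c*` with spectral gap `C`.  In every model of
the ultrapower of `N` along an ultrafilter, every element that commutes with `u` and `v` is a scalar,
`u` and `v` are not joined by a chain with one intermediate Haar unitary, and so the sequential
commutation diameter of `N` is at least two. -/
theorem result :
    ∃ C : ℝ, 0 < C ∧ ∀ (H : Type) [NormedAddCommGroup H] [InnerProductSpace ℂ H]
      [CompleteSpace H] (N : VonNeumannAlgebra H) (t : Fn (Elt N)),
      IsIIOneFactor N t.val → ¬ Gamma t → HasPair t C := by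
  obtain ⟨C, hC, hmain⟩ := fin_of p_HAAR p_COMM p_BLK p_GAPD p_UGAP p_UV
    (p_G2 p_C1 p_C2 (p_C3 p_C2) p_UW)
  refine ⟨C, hC, ?_⟩
  intro H _ _ _ N t hN hG
  obtain ⟨u, c, hc, hu, hv, hg⟩ := hmain H N t hN hG
  refine ⟨u, _, c, hc, rfl, hu, hv, hg, ?_⟩
  intro U Q _ _ _ _ π σ hπ
  obtain ⟨h1, h2⟩ := two_le p_ULT N t hN C u _ hu hv hg U Q π σ hπ
  exact ⟨fun q hq1 hq2 => p_ULT H N t hN C u _ hg U Q π σ hπ q hq1 hq2, h1, h2⟩

end Pool.Agent.Results.MP_b14dba_an.TwoHaarUnitaries
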